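import Pool.Agent.Helper53.PB.HypMain

/-!
# Smallest point sets meeting all generators of `Q^+(2n+1,q)`, `q = 4, 8`

For `n ≥ 4` the minimum is `q ^ n + q ^ (n - 3)`, attained by cones over ovoids of `Q^+(7,q)`.

Idea of the lower bound for `n = 4`: let `T` be a smallest set meeting all generators and suppose
`|T| = q^4 + 1 + j` with `j ≤ q - 2`. Counting in the neighbours of a generator one finds points with
weights, of total weight `j`, such that every generator `U` contains one more point of `T` than the
total weight of `U`. This makes `T` almost a set of pairwise non-orthogonal points: it contains more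
than `10^h + 1` of them, `q = 2^h`, against the bound given by the rank over `GF(q)` of the matrix of
the `(q-1)`-th powers of the form.
-/

set_option autoImplicit false

open Module
open scoped LinearAlgebra.Projectivization

namespace Pool.Agent.Helper53.Old.HyperbolicFourEight

open Pool.Agent.Helper53.PB

universe u v

/-- Let `F` be a field with `q = 4` or `q = 8` elements, `n ≥ 4`, and `Q` a non-degenerate quadratic
form on a vector space of dimension `2 n + 2` over `F` that vanishes on a subspace of dimension
`n + 1`. The smallest size of a set of points of the hyperbolic quadric `Q^+(2n+1,q)` that meets every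
generator is `q ^ n + q ^ (n - 3)`. -/
theorem result (F : Type u) [Field F] (hF : Nat.card F = 4 ∨ Nat.card F = 8) (V : Type v)
    [AddCommGroup V] [Module F V] [FiniteDimensional F V] (Q : QuadraticForm F V)
    (nondeg : ∀ x, Q x = 0 → (∀ y, QuadraticMap.polar Q x y = 0) → x = 0) (n : ℕ) (hn : 4 ≤ n)
    (hV : finrank F V = 2 * n + 2)
    (hyp : ∃ U : Submodule F V, (∀ x ∈ U, Q x = 0) ∧ finrank F U = n + 1) :
    IsLeast {k | ∃ T : Finset (ℙ F V), Blocking (Form.orthogonal Q nondeg) T ∧ T.card = k}
      (Nat.card F ^ n + Nat.card F ^ (n - 3)) := by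
  have hfin : Finite F := Nat.finite_of_card_ne_zero (by rcases hF with h | h <;> rw [h] <;> norm_num)
  obtain ⟨h, hF2, h2⟩ : ∃ h, Nat.card F = 2 ^ h ∧ (h = 2 ∨ h = 3) := by
    rcases hF with h | h
    · exact ⟨2, by rw [h]; norm_num, Or.inl rfl⟩
    · exact ⟨3, by rw [h]; norm_num, Or.inr rfl⟩
  obtain ⟨m, rfl⟩ : ∃ m, n = m + 4 := ⟨n - 4, by omega⟩
  have hp : HasParams (Form.orthogonal Q nondeg) (2 * (m + 5)) (m + 5) :=
    hyp_params Q nondeg (by omega) hyp
  obtain ⟨⟨T, hT, hle⟩, hge⟩ := hyp_class hF2 h2 m V (Form.orthogonal Q nondeg) rfl hp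
  have he : m + 4 - 3 = m + 1 := by omega
  rw [he]
  constructor
  · exact ⟨T, (blocking_iff _ _).2 hT, le_antisymm hle (hge T hT)⟩
  · rintro k ⟨T', hT', rfl⟩
    exact hge T' ((blocking_iff _ _).1 hT')

end Pool.Agent.Helper53.Old.HyperbolicFourEight
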